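import Mathlib
import Pool.Agent.N745.T1.Third

/-!
# Counting abc-triples with a large exponent, over all triples

The theorem `count_third` of helper745, in the form of `ThirdLargeExponent` (MP_2ec8a3_nt).
-/

set_option autoImplicit false

namespace Pool.Agent.N752.LE

open Pool.Agent.H785R2.ABC (IsABCTriple rad)

/-- the radical: product of the distinct primes dividing `n` -/
def radical (n : ℕ) : ℕ := ∏ p ∈ n.primeFactors, p

/-- the abc-triples `(a, b, c)`: positive integers, `a + b = c`, `gcd (a, b) = 1` -/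
def IsTriple (t : ℕ × ℕ × ℕ) : Prop :=
  0 < t.1 ∧ 0 < t.2.1 ∧ Nat.Coprime t.1 t.2.1 ∧ t.1 + t.2.1 = t.2.2

/-- the radical of `abc` -/
def rad3 (t : ℕ × ℕ × ℕ) : ℕ := radical (t.1 * t.2.1 * t.2.2)

/-- the abc-triples with `rad (abc) ≤ X` and `rad (abc) ^ M ≤ c ≤ X ^ k` -/
def Large (M k X : ℕ) : Set (ℕ × ℕ × ℕ) :=
  {t | IsTriple t ∧ rad3 t ≤ X ∧ rad3 t ^ M ≤ t.2.2 ∧ t.2.2 ≤ X ^ k}

/-- the abc-triples with `c ≤ H` which violate `c < rad (abc) ^ m` -/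
def Violating (m : ℝ) (H : ℕ) : Set (ℕ × ℕ × ℕ) :=
  {t | IsTriple t ∧ t.2.2 ≤ H ∧ (rad3 t : ℝ) ^ m ≤ (t.2.2 : ℝ)}

/-- auxiliary set: `c ≤ X ^ T` and `rad ≤ c ^ lam` -/
def S (T lam : ℝ) (X : ℕ) : Set (ℕ × ℕ × ℕ) :=
  {t | IsABCTriple t.1 t.2.1 t.2.2 ∧ (t.2.2 : ℝ) ≤ (X : ℝ) ^ T ∧
    (rad (t.1 * t.2.1 * t.2.2) : ℝ) ≤ (t.2.2 : ℝ) ^ lam}

/-- auxiliary set: `c ≤ X ^ T`, `rad ≤ X` and `rad ≤ c ^ lam` -/
def P (T lam : ℝ) (X : ℕ) : Set (ℕ × ℕ × ℕ) :=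
  {t | IsABCTriple t.1 t.2.1 t.2.2 ∧ (t.2.2 : ℝ) ≤ (X : ℝ) ^ T ∧
    rad (t.1 * t.2.1 * t.2.2) ≤ X ∧
    (rad (t.1 * t.2.1 * t.2.2) : ℝ) ≤ (t.2.2 : ℝ) ^ lam}

theorem fin_aux (Z : Set (ℕ × ℕ × ℕ)) (N : ℕ)
    (h : ∀ t ∈ Z, IsABCTriple t.1 t.2.1 t.2.2 ∧ t.2.2 ≤ N) : Z.Finite := by
  refine Set.Finite.subset (Finset.finite_toSet
      ((Finset.range (N + 1)) ×ˢ (Finset.range (N + 1)) ×ˢ (Finset.range (N + 1)))) ?_
  rintro ⟨a, b, c⟩ ht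
  obtain ⟨⟨h1, h2, h3, h4, h5⟩, h6⟩ := h _ ht
  simp only at h1 h2 h4 h6
  simp only [Finset.coe_product, Set.mem_prod, Finset.coe_range, Set.mem_Iio]
  omega

theorem S_fin (T lam : ℝ) (X : ℕ) : (S T lam X).Finite := by
  refine fin_aux _ ⌊(X : ℝ) ^ T⌋₊ ?_
  rintro t ⟨h1, h2, h3⟩
  exact ⟨h1, Nat.le_floor h2⟩

theorem P_fin (T lam : ℝ) (X : ℕ) : (P T lam X).Finite := by
  refine fin_aux _ ⌊(X : ℝ) ^ T⌋₊ ?_
  rintro t ⟨h1, h2, h3⟩
  exact ⟨h1, Nat.le_floor h2⟩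

theorem S_card {lam0 η : ℝ} (hη : 0 < η) (hη1 : η ≤ 2 / 3)
    (hlam0 : 0 < lam0) (hlam1 : lam0 ≤ 1) (hmain : ∀ lam : ℝ, 0 < lam → lam ≤ lam0 →
      Pool.Agent.H705R2.ABC.StmtCount lam ((1 / 3 + η) * lam)) (t : ℝ) (ht : 1 / lam0 ≤ t) :
    ∃ C : ℝ, 0 ≤ C ∧ ∀ X : ℕ, 1 ≤ X →
      ((S (t + η) (1 / t) X).ncard : ℝ) ≤ C * (X : ℝ) ^ (1 / 3 + 3 * η) := by
  have ht1 : 1 ≤ t := by
    refine le_trans ?_ ht
    rw [le_div_iff₀ hlam0, one_mul]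
    exact hlam1
  have ht0 : 0 < t := by linarith
  have hlam : 1 / t ≤ lam0 := by
    rw [div_le_iff₀ hlam0] at ht
    rw [div_le_iff₀ ht0]
    linarith
  have hd : 0 < t + η := by linarith
  obtain ⟨C, hC⟩ := hmain (1 / t) (by positivity) hlam (η / (t + η)) (by positivity)
  refine ⟨|C|, abs_nonneg C, fun X hX => ?_⟩
  have hX1 : (1 : ℝ) ≤ X := by exact_mod_cast hX
  have hX0 : (0 : ℝ) < X := by linarith
  set N : ℕ := ⌊(X : ℝ) ^ (t + η)⌋₊ with hN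
  have hN1 : 1 ≤ N := Nat.le_floor (by
    rw [Nat.cast_one]
    exact Real.one_le_rpow hX1 hd.le)
  have hNX : (N : ℝ) ≤ (X : ℝ) ^ (t + η) := Nat.floor_le (by positivity)
  have h1 := hC N hN1
  have hset : S (t + η) (1 / t) X = {u : ℕ × ℕ × ℕ | IsABCTriple u.1 u.2.1 u.2.2 ∧
      u.2.2 ≤ N ∧ (rad (u.1 * u.2.1 * u.2.2) : ℝ) ≤ (u.2.2 : ℝ) ^ (1 / t)} := by
    ext u
    constructor
    · rintro ⟨a1, a2, a3⟩
      exact ⟨a1, Nat.le_floor a2, a3⟩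
    · rintro ⟨a1, a2, a3⟩
      refine ⟨a1, le_trans ?_ hNX, a3⟩
      exact_mod_cast a2
  rw [hset]
  refine h1.trans ?_
  have he : 0 ≤ (1 / 3 + η) * (1 / t) + η / (t + η) := by positivity
  have h2 : (N : ℝ) ^ ((1 / 3 + η) * (1 / t) + η / (t + η)) ≤
      ((X : ℝ) ^ (t + η)) ^ ((1 / 3 + η) * (1 / t) + η / (t + η)) :=
    Real.rpow_le_rpow (Nat.cast_nonneg _) hNX he
  rw [← Real.rpow_mul hX0.le] at h2
  have h3 : (t + η) * ((1 / 3 + η) * (1 / t) + η / (t + η)) ≤ 1 / 3 + 3 * η := by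
    have e1 : (t + η) * ((1 / 3 + η) * (1 / t) + η / (t + η)) =
        1 / 3 + η + η * ((1 / 3 + η) * (1 / t)) + η := by
      field_simp
    rw [e1]
    have e2 : (1 / 3 + η) * (1 / t) ≤ 1 := by
      have e3 : 1 / t ≤ 1 := hlam.trans hlam1
      have e4 : 0 < 1 / t := by positivity
      nlinarith
    have e5 : η * ((1 / 3 + η) * (1 / t)) ≤ η * 1 := mul_le_mul_of_nonneg_left e2 hη.le
    linarith
  have h4 : (X : ℝ) ^ ((t + η) * ((1 / 3 + η) * (1 / t) + η / (t + η))) ≤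
      (X : ℝ) ^ (1 / 3 + 3 * η : ℝ) := Real.rpow_le_rpow_of_exponent_le hX1 h3
  have h5 : 0 ≤ (N : ℝ) ^ ((1 / 3 + η) * (1 / t) + η / (t + η)) := by positivity
  calc C * (N : ℝ) ^ ((1 / 3 + η) * (1 / t) + η / (t + η))
      ≤ |C| * (N : ℝ) ^ ((1 / 3 + η) * (1 / t) + η / (t + η)) :=
        mul_le_mul_of_nonneg_right (le_abs_self C) h5
    _ ≤ |C| * (X : ℝ) ^ (1 / 3 + 3 * η : ℝ) :=
        mul_le_mul_of_nonneg_left (h2.trans h4) (abs_nonneg C)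

theorem P_card {lam0 η : ℝ} (hη : 0 < η) (hη1 : η ≤ 2 / 3)
    (hlam0 : 0 < lam0) (hlam1 : lam0 ≤ 1) (hmain : ∀ lam : ℝ, 0 < lam → lam ≤ lam0 →
      Pool.Agent.H705R2.ABC.StmtCount lam ((1 / 3 + η) * lam)) {M : ℕ} (hM : 1 / lam0 ≤ M) (J : ℕ) :
    ∃ C : ℝ, 0 ≤ C ∧ ∀ X : ℕ, 1 ≤ X →
      ((P (M + J * η) (1 / M) X).ncard : ℝ) ≤ C * (X : ℝ) ^ (1 / 3 + 3 * η) := by
  induction J with
  | zero =>
    obtain ⟨C, hC0, hC⟩ := S_card hη hη1 hlam0 hlam1 hmain M hM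
    refine ⟨C, hC0, fun X hX => le_trans ?_ (hC X hX)⟩
    have hX1 : (1 : ℝ) ≤ X := by exact_mod_cast hX
    have hsub : P (M + (0 : ℕ) * η) (1 / M) X ⊆ S (M + η) (1 / M) X := by
      rintro t ⟨h1, h2, h3, h4⟩
      refine ⟨h1, h2.trans (Real.rpow_le_rpow_of_exponent_le hX1 ?_), h4⟩
      rw [Nat.cast_zero, zero_mul]
      linarith
    exact_mod_cast Set.ncard_le_ncard hsub (S_fin _ _ _)
  | succ J ih =>
    obtain ⟨C, hC0, hC⟩ := ih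
    have ht : 1 / lam0 ≤ M + J * η := by
      have : 0 ≤ (J : ℝ) * η := by positivity
      linarith
    obtain ⟨C', hC0', hC'⟩ := S_card hη hη1 hlam0 hlam1 hmain (M + J * η) ht
    refine ⟨C + C', by positivity, fun X hX => ?_⟩
    have hX1 : (1 : ℝ) ≤ X := by exact_mod_cast hX
    have hX0 : (0 : ℝ) < X := by linarith
    set t : ℝ := M + J * η with htdef
    have ht0 : 0 < t := lt_of_lt_of_le (by positivity) ht
    have hsub : P (M + ((J + 1 : ℕ) : ℝ) * η) (1 / M) X ⊆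
        P t (1 / M) X ∪ S (t + η) (1 / t) X := by
      rintro u ⟨h1, h2, h3, h4⟩
      rcases le_or_gt ((u.2.2 : ℝ)) ((X : ℝ) ^ t) with h | h
      · exact Or.inl ⟨h1, h, h3, h4⟩
      · right
        refine ⟨h1, h2.trans (le_of_eq ?_), ?_⟩
        · congr 1
          rw [htdef]
          push_cast
          ring
        · have h5 : ((rad (u.1 * u.2.1 * u.2.2) : ℕ) : ℝ) ≤ X := by exact_mod_cast h3
          refine h5.trans ?_
          have h6 : ((X : ℝ) ^ t) ^ (1 / t) ≤ (u.2.2 : ℝ) ^ (1 / t) :=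
            Real.rpow_le_rpow (by positivity) h.le (by positivity)
          rw [← Real.rpow_mul hX0.le, mul_one_div_cancel ht0.ne', Real.rpow_one] at h6
          exact h6
    have h7 : ((P (M + ((J + 1 : ℕ) : ℝ) * η) (1 / M) X).ncard : ℝ) ≤
        ((P t (1 / M) X).ncard : ℝ) + ((S (t + η) (1 / t) X).ncard : ℝ) := by
      have := (Set.ncard_le_ncard hsub ((P_fin _ _ _).union (S_fin _ _ _))).trans
        (Set.ncard_union_le _ _)
      exact_mod_cast this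
    refine h7.trans ?_
    rw [add_mul]
    exact add_le_add (hC X hX) (hC' X hX)

theorem large_fin (M k X : ℕ) : (Large M k X).Finite := by
  refine fin_aux _ (X ^ k) ?_
  rintro ⟨a, b, c⟩ ⟨⟨ha, hb, hab, habc⟩, -, -, hc⟩
  simp only at ha hb hab habc hc
  subst habc
  refine ⟨⟨ha, hb, Nat.add_pos_left ha b, rfl, hab, ?_, ?_⟩, hc⟩
  · simpa using hab
  · simpa using hab.symm

theorem violating_fin (m : ℝ) (H : ℕ) : (Violating m H).Finite := by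
  refine fin_aux _ H ?_
  rintro ⟨a, b, c⟩ ⟨⟨ha, hb, hab, habc⟩, hc, -⟩
  simp only at ha hb hab habc hc
  subst habc
  refine ⟨⟨ha, hb, Nat.add_pos_left ha b, rfl, hab, ?_, ?_⟩, hc⟩
  · simpa using hab
  · simpa using hab.symm

theorem rad3_pos (t : ℕ × ℕ × ℕ) : 1 ≤ rad3 t := by
  unfold rad3 radical
  exact Nat.one_le_iff_ne_zero.2
    (Finset.prod_ne_zero_iff.2 fun p hp => (Nat.prime_of_mem_primeFactors hp).ne_zero)

/-- the bound in terms of the radical -/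
theorem part_one (ε : ℝ) (hε : 0 < ε) : ∃ M : ℕ, 1 ≤ M ∧ ∀ k : ℕ, ∃ C : ℝ, 0 ≤ C ∧
    ∀ X : ℕ, 1 ≤ X → ((Large M k X).ncard : ℝ) ≤ C * (X : ℝ) ^ (1 / 3 + ε) := by
  obtain ⟨η, hη, hη1, hη2⟩ : ∃ η : ℝ, 0 < η ∧ η ≤ 2 / 3 ∧ 3 * η ≤ ε :=
    ⟨min (2 / 3) (ε / 3), lt_min (by norm_num) (by positivity), min_le_left _ _, by
      have := min_le_right (2 / 3 : ℝ) (ε / 3)
      linarith⟩
  obtain ⟨lam0, h0, h1, hmain⟩ := Pool.Agent.N745.T1.count_third η hη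
  obtain ⟨M, hM⟩ := exists_nat_ge (1 / lam0)
  have hM0 : 0 < M := by
    have : (0 : ℝ) < M := lt_of_lt_of_le (by positivity) hM
    exact_mod_cast this
  refine ⟨M, hM0, fun k => ?_⟩
  obtain ⟨J, hJ⟩ := exists_nat_ge ((k : ℝ) / η)
  obtain ⟨C, hC0, hC⟩ := P_card hη hη1 h0 h1 hmain hM J
  refine ⟨C, hC0, fun X hX => ?_⟩
  have hX1 : (1 : ℝ) ≤ X := by exact_mod_cast hX
  have hsub : Large M k X ⊆ P (M + J * η) (1 / M) X := by
    rintro ⟨a, b, c⟩ ⟨⟨ha, hb, hab, habc⟩, hr, hr2, hc⟩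
    simp only at ha hb hab habc hr hr2 hc
    subst habc
    refine ⟨⟨ha, hb, Nat.add_pos_left ha b, rfl, hab, ?_, ?_⟩, ?_, hr, ?_⟩
    · simpa using hab
    · simpa using hab.symm
    · show ((a + b : ℕ) : ℝ) ≤ (X : ℝ) ^ ((M : ℝ) + (J : ℝ) * η)
      have h1 : ((a + b : ℕ) : ℝ) ≤ (X : ℝ) ^ k := by exact_mod_cast hc
      refine h1.trans ?_
      rw [← Real.rpow_natCast]
      refine Real.rpow_le_rpow_of_exponent_le hX1 ?_
      rw [div_le_iff₀ (by positivity)] at hJ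
      have : (0 : ℝ) ≤ M := Nat.cast_nonneg _
      linarith
    · show (radical (a * b * (a + b)) : ℝ) ≤ ((a + b : ℕ) : ℝ) ^ (1 / (M : ℝ))
      have h0 : (0 : ℝ) ≤ (radical (a * b * (a + b)) : ℝ) := Nat.cast_nonneg _
      have hMr : (0 : ℝ) < M := by exact_mod_cast hM0
      have hr' : (radical (a * b * (a + b)) : ℝ) ^ M ≤ ((a + b : ℕ) : ℝ) := by
        exact_mod_cast hr2
      calc (radical (a * b * (a + b)) : ℝ)
          = ((radical (a * b * (a + b)) : ℝ) ^ M) ^ (1 / (M : ℝ)) := by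
            rw [← Real.rpow_natCast, ← Real.rpow_mul h0, mul_one_div_cancel hMr.ne',
              Real.rpow_one]
        _ ≤ _ := Real.rpow_le_rpow (by positivity) hr' (by positivity)
  have h4 : ((Large M k X).ncard : ℝ) ≤ ((P (M + J * η) (1 / M) X).ncard : ℝ) := by
    exact_mod_cast Set.ncard_le_ncard hsub (P_fin _ _ _)
  refine (h4.trans (hC X hX)).trans ?_
  apply mul_le_mul_of_nonneg_left _ hC0
  exact Real.rpow_le_rpow_of_exponent_le hX1 (by linarith)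

end Pool.Agent.N752.LE
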